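import Pool.Agent.N594.NT.Stm

/-!
# Project NT (helper594), part FK (helper265): few complete graphs on `k + 1` vertices
-/

set_option autoImplicit false

open Finset
open scoped Classical

namespace Pool.Agent.N265.NT.FK

open Pool.Agent.TH200.LP Pool.Agent.N594.NT

/-- the average does not depend on the instance -/
theorem av_irrel {Ω : Type} (i1 i2 : Fintype Ω) (f : Ω → ℝ) : @av Ω i1 f = @av Ω i2 f := by
  have h := Subsingleton.elim i1 i2
  subst h
  rfl

/-- the index type -/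
abbrev Ix (d k : ℕ) : Type := (Fin d × Fin k) ⊕ Fin (k + 1)

/-- all groups are cliques -/
def EE {V : Type} (G : V → V → Prop) {d k : ℕ} (ω : Ix d k → V) : Prop :=
  (∀ a : Fin d, Cl G (fun i : Fin k => ω (Sum.inl (a, i)))) ∧
    Cl G (fun i : Fin (k + 1) => ω (Sum.inr i))

theorem av_EE {V : Type} [Fintype V] [Nonempty V] (G : V → V → Prop) (d k : ℕ) :
    (av fun ω : Ix d k → V => ind (EE G ω)) = t G k ^ d * t G (k + 1) := by
  rw [av_sumType]
  have h1 : ∀ (A : Fin d × Fin k → V) (B : Fin (k + 1) → V), ind (EE G (Sum.elim A B)) =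
      ind (∀ a : Fin d, Cl G (fun i : Fin k => A (a, i))) * ind (Cl G B) := by
    intro A B
    rw [← ind_and]
    rfl
  simp only [h1, av_mul_left, av_mul_right]
  have h2 : (av fun A : Fin d × Fin k → V => ind (∀ a : Fin d, Cl G (fun i : Fin k => A (a, i)))) =
      t G k ^ d := by
    have h3 := av_equiv (Equiv.curry (Fin d) (Fin k) V)
      (fun B : Fin d → Fin k → V => ind (∀ a, Cl G (B a)))
    have h4 : (av fun B : Fin d → Fin k → V => ind (∀ a, Cl G (B a))) = t G k ^ d := by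
      have h5 := av_prod_gen (V := Fin k → V) (ι := Fin d) (fun _ X => ind (Cl G X))
      rw [Finset.prod_const, Finset.card_univ, Fintype.card_fin] at h5
      simp only [ind_forall_gen]
      exact h5
    rw [← h4, ← h3]
    rfl
  rw [h2]
  rfl

/-- the groups -/
def gr {d k : ℕ} : Ix d k → Option (Fin d)
  | Sum.inl p => some p.1
  | Sum.inr _ => none

theorem same {V : Type} {G : V → V → Prop} {d k : ℕ} {ω : Ix d k → V} (hE : EE G ω)
    {i j : Ix d k} (hij : i ≠ j) (h : gr i = gr j) : G (ω i) (ω j) := by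
  rcases i with ⟨a, i⟩ | i <;> rcases j with ⟨b, j⟩ | j
  · have hab : a = b := Option.some.inj h
    subst hab
    exact hE.1 a i j fun hh => hij (by rw [hh])
  · exact absurd h (by simp [gr])
  · exact absurd h (by simp [gr])
  · exact hE.2 i j fun hh => hij (by rw [hh])

theorem point {V : Type} {H : Finset V → Prop} {G : V → V → Prop} {d k : ℕ}
    (hF : Fr d k H) (ω : Ix d k → V) :
    ind (EE G ω) ≤ ∑ p : Finset (Ix d k) × Ix d k × Ix d k,
      ind (p.2.1 ∈ p.1 ∧ p.2.2 ∈ p.1 ∧ p.2.1 ≠ p.2.2 ∧ p.1.card = d + 2) *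
        (ind (G (ω p.2.1) (ω p.2.2)) * ind (¬ H (p.1.image ω))) := by
  have h0 : ∀ p ∈ (univ : Finset (Finset (Ix d k) × Ix d k × Ix d k)),
      0 ≤ ind (p.2.1 ∈ p.1 ∧ p.2.2 ∈ p.1 ∧ p.2.1 ≠ p.2.2 ∧ p.1.card = d + 2) *
        (ind (G (ω p.2.1) (ω p.2.2)) * ind (¬ H (p.1.image ω))) :=
    fun p _ => mul_nonneg (ind_nonneg _) (mul_nonneg (ind_nonneg _) (ind_nonneg _))
  by_cases hE : EE G ω
  · have hc : Fintype.card (Ix d k) = k * (d + 1) + 1 := by
      simp only [Ix, Fintype.card_sum, Fintype.card_prod, Fintype.card_fin]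
      ring
    have e0 : Ix d k ≃ Fin (k * (d + 1) + 1) := Fintype.equivFinOfCardEq hc
    obtain ⟨J0, hJ0, hH⟩ := hF (fun i => ω (e0.symm i))
    have hJc : (J0.map e0.symm.toEmbedding).card = d + 2 := by rw [card_map, hJ0]
    have him : (J0.map e0.symm.toEmbedding).image ω = J0.image (fun i => ω (e0.symm i)) := by
      ext v
      simp only [mem_image, mem_map]
      constructor
      · rintro ⟨_, ⟨i, hi, rfl⟩, rfl⟩
        exact ⟨i, hi, rfl⟩
      · rintro ⟨i, hi, rfl⟩
        exact ⟨_, ⟨i, hi, rfl⟩, rfl⟩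
    obtain ⟨i, hi, j, hj, hij, hg⟩ := exists_ne_map_eq_of_card_lt_of_maps_to
      (s := J0.map e0.symm.toEmbedding) (t := (univ : Finset (Option (Fin d)))) (f := gr)
      (by rw [hJc, card_univ, Fintype.card_option, Fintype.card_fin]; omega)
      (fun _ _ => mem_coe.2 (mem_univ _))
    rw [ind_true hE]
    refine le_trans ?_ (single_le_sum h0 (mem_univ (J0.map e0.symm.toEmbedding, i, j)))
    rw [ind_true ⟨hi, hj, hij, hJc⟩, ind_true (same hE hij hg), ind_true (by rw [him]; exact hH)]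
    norm_num
  · rw [ind_false hE]
    exact sum_nonneg h0

theorem term {V : Type} [Fintype V] [Nonempty V] {H : Finset V → Prop} {d k : ℕ} {ε : ℝ}
    (hP0 : S_P0) (hε : 0 ≤ ε) (p : Finset (Ix d k) × Ix d k × Ix d k) :
    (av fun ω : Ix d k → V =>
      ind (p.2.1 ∈ p.1 ∧ p.2.2 ∈ p.1 ∧ p.2.1 ≠ p.2.2 ∧ p.1.card = d + 2) *
        (ind (Gr d ε H (ω p.2.1) (ω p.2.2)) * ind (¬ H (p.1.image ω)))) ≤ ε := by
  by_cases hc : p.2.1 ∈ p.1 ∧ p.2.2 ∈ p.1 ∧ p.2.1 ≠ p.2.2 ∧ p.1.card = d + 2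
  · rw [ind_true hc]
    simp only [one_mul]
    have h1 := hP0 d V H (Ix d k) p.1 p.2.1 p.2.2 (fun x y => ind (Gr d ε H x y)) hc.1 hc.2.1
      hc.2.2.1 hc.2.2.2
    refine (le_of_eq ((av_irrel _ _ _).trans h1)).trans ?_
    have h2 : ∀ x y : V, ind (Gr d ε H x y) * (1 - cdg d H x y) ≤ ε := by
      intro x y
      by_cases hG : Gr d ε H x y
      · have h3 : 1 - ε ≤ cdg d H x y := hG
        rw [ind_true hG]
        linarith
      · rw [ind_false hG, zero_mul]
        exact hε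
    refine (av_mono fun x => av_mono fun y => h2 x y).trans ?_
    rw [av_const, av_const]
  · rw [ind_false hc]
    simp only [zero_mul]
    rw [av_const]
    exact hε

theorem main (hP0 : S_P0) : S_FK := by
  intro d k _ _
  refine ⟨(Fintype.card (Finset (Ix d k) × Ix d k × Ix d k) : ℝ) + 1, by positivity, ?_⟩
  intro V _ _ H ε hε hF
  rw [← av_EE]
  refine (av_mono fun ω => point hF ω).trans ?_
  rw [av_sum]
  refine (sum_le_sum fun p _ => term hP0 hε p).trans ?_
  rw [sum_const, card_univ, nsmul_eq_mul]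
  nlinarith

end Pool.Agent.N265.NT.FK
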